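import Mathlib

set_option autoImplicit false

namespace Pool.Agent.Results.MP_dc22f7_an.Counter

open Polynomial

/-- `T d n k` : iterated Laguerre expression built from the values `d j` of the `j`-th derivative. -/
def T (d : ℕ → ℝ) : ℕ → ℕ → ℝ
  | 0, k => d k ^ 2 - d (k - 1) * d (k + 1)
  | n + 1, k => T d n k ^ 2 - T d n (k - 1) * T d n (k + 1)

lemma cf (k : ℕ) : (derivative^[k + 2] ((1 + X) ^ 40 * (1 + C 80 * X) ^ 2 : ℝ[X])).eval 0
    = ((k + 2).factorial * (Nat.choose 40 (k + 2) + 160 * Nat.choose 40 (k + 1)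
      + 6400 * Nat.choose 40 k) : ℕ) := by
  have e : ((1 + X) ^ 40 * (1 + C 80 * X) ^ 2 : ℝ[X])
      = (1 + X) ^ 40 + C 160 * ((1 + X) ^ 40 * X) + C 6400 * ((1 + X) ^ 40 * X * X) := by
    rw [show (160 : ℝ) = 2 * 80 by norm_num, show (6400 : ℝ) = 80 * 80 by norm_num, C_mul, C_mul,
      show (C 2 : ℝ[X]) = 2 from rfl]
    generalize ((1 + X) ^ 40 : ℝ[X]) = Q
    ring
  rw [← coeff_zero_eq_eval_zero, coeff_iterate_derivative, e, zero_add, Nat.descFactorial_self]
  simp only [coeff_add, coeff_C_mul, coeff_mul_X, coeff_one_add_X_pow, nsmul_eq_mul]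
  push_cast
  ring

lemma cf1 : (derivative^[1] ((1 + X) ^ 40 * (1 + C 80 * X) ^ 2 : ℝ[X])).eval 0 = 200 := by
  simp [derivative_mul, derivative_pow]
  norm_num

lemma cf0 : (derivative^[0] ((1 + X) ^ 40 * (1 + C 80 * X) ^ 2 : ℝ[X])).eval 0 = 1 := by
  simp

theorem result :
    ∃ P : ℝ[X], (∀ z : ℂ, aeval z P = 0 → z.im = 0 ∧ z.re < 0) ∧ (∀ j, 0 ≤ P.coeff j) ∧
      ∃ n k : ℕ, n + 1 ≤ k ∧ ∃ x : ℝ, 0 ≤ x ∧
        T (fun j => (derivative^[j] P).eval x) n k < 0 := by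
  refine ⟨(1 + X) ^ 40 * (1 + C 80 * X) ^ 2, ?_, ?_, 4, 5, le_rfl, 0, le_rfl, ?_⟩
  · intro z hz
    simp only [map_mul, map_pow, map_add, map_one, aeval_X, aeval_C, mul_eq_zero] at hz
    rcases hz with h | h
    · have h1 : z = -1 := by linear_combination pow_eq_zero_iff (by norm_num) |>.1 h
      rw [h1]; norm_num
    · have h0 : 1 + (algebraMap ℝ ℂ 80) * z = 0 := pow_eq_zero_iff (by norm_num) |>.1 h
      have h2 := congrArg Complex.re h0
      have h3 := congrArg Complex.im h0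
      simp at h2 h3
      exact ⟨h3, by linarith⟩
  · intro j
    rw [coeff_mul]
    refine Finset.sum_nonneg (fun p _ => mul_nonneg ?_ ?_)
    · rw [coeff_one_add_X_pow]; positivity
    · rw [show (1 + C 80 * X : ℝ[X]) ^ 2 = 1 + C (2 * 80) * X ^ 1 + C (80 * 80) * X ^ 2 by
        rw [C_mul, C_mul, show (C 2 : ℝ[X]) = 2 from rfl]; ring]
      simp only [coeff_add, coeff_C_mul, coeff_X_pow, coeff_one]
      split_ifs <;> norm_num
  · have h2 := cf 0
    have h3 := cf 1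
    have h4 := cf 2
    have h5 := cf 3
    have h6 := cf 4
    have h7 := cf 5
    have h8 := cf 6
    have h9 := cf 7
    have h10 := cf 8
    simp only [Nat.reduceAdd] at h2 h3 h4 h5 h6 h7 h8 h9 h10
    simp only [T, Nat.reduceAdd, Nat.reduceSub, cf0, cf1, h2, h3, h4, h5, h6, h7, h8, h9, h10]
    norm_num [Nat.factorial, Nat.choose]

end Pool.Agent.Results.MP_dc22f7_an.Counter
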